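import Pool.Agent.Q218.SC.Zo

set_option autoImplicit false

open MeasureTheory Set Filter
open scoped Topology

/-!
Site percolation on `Z^d`, `d ≥ 2`, at the critical point.  Almost surely there are infinitely many
scales (with positive upper logarithmic density) at which the vertices of infinite clusters have
the right density in a box, but all the clusters of a much larger box are small.
-/

namespace Pool.Agent.Results.MP_e13933_pr.AlmostSureShattering

open Pool.Agent.Results.MP_e13933_pr.NoGiantCluster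

noncomputable section

/-- The number of the vertices of the box of radius `N` whose open cluster (in the whole lattice)
is infinite. -/
def numInf (d N : ℕ) (ω : V d → Bool) : ℕ := {x ∈ box d N | (cluster ω univ x).Infinite}.ncard

/-- The scale `N` is good: every open cluster of the box of radius `R N` has less than
`ε (2 N + 1)^d` vertices, and the number of the vertices of the box of radius `N` which are in
infinite open clusters differs from `θ(p_c) (2 N + 1)^d` by less than `ε (2 N + 1)^d`. -/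
def Good (d R : ℕ) (ε : ℝ) (N : ℕ) (ω : V d → Bool) : Prop :=
  (largest d (R * N) ω : ℝ) < ε * (2 * N + 1) ^ d ∧
    |(numInf d N ω : ℝ) - theta d (pc d) * (2 * N + 1) ^ d| < ε * (2 * N + 1) ^ d

open Pool.Agent.Q218.SC

theorem numInf_eq (d N : ℕ) (ω : V d → Bool) : (numInf d N ω : ℝ) = D (d := d) N ω := by
  classical
  have hT : ∀ x : V d, T x ω ∈ PZ d ↔ (cluster ω univ x).Infinite := by
    intro x
    rw [infinite_iff]
    have h := Pool.Agent.Y990.CB.Perc_sym (Pool.Agent.Y990.CB.siteM d) ω x 0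
    rw [zero_add] at h
    exact h
  unfold D numInf
  have e1 : ({x ∈ box d N | (cluster ω univ x).Infinite} : Set (V d)) =
      (((Pool.Agent.Y990.CB.Bf (0 : V d) N).filter fun x => (cluster ω univ x).Infinite :
        Finset (V d)) : Set (V d)) := by
    ext x
    rw [Finset.coe_filter]
    simp only [mem_ofPred_eq, Pool.Agent.Y990.CB.mem_Bf, box_eq]
  rw [e1, Set.ncard_coe_finset, Finset.card_filter]
  push_cast
  apply Finset.sum_congr rfl
  intro x _
  unfold ph
  by_cases hx : (cluster ω univ x).Infinite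
  · rw [if_pos hx, Set.indicator_of_mem ((hT x).2 hx)]
    rfl
  · rw [if_neg hx, Set.indicator_of_notMem fun h => hx ((hT x).1 h)]

theorem good_iff (d R : ℕ) (ε : ℝ) (N : ℕ) (ω : V d → Bool) :
    ω ∈ Gd (Pool.Agent.Y990.CB.th (Pool.Agent.Y990.CB.siteM d) (pc d)) R N ε ↔
      Good d R ε N ω := by
  unfold Gd Good
  rw [← theta_eq, mem_ofPred_eq, numInf_eq, V_eq]

theorem ng (d : ℕ) (hd : 2 ≤ d) : NG d (pc d) := by
  intro ε hε R hR
  exact (NoGiantCluster.result d hd ε hε).1 R hR

/-- **Almost sure shattering at the critical point.**  For every `d ≥ 2`, `P_{p_c}`-almost surely: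

* for all `R ≥ 1` and `ε > 0` there are infinitely many good scales `N`;
* the density of the largest open cluster of the box of radius `N` has lower limit zero.

Moreover for all `R ≥ 1` and `ε > 0` there is a constant `κ > 0` such that almost surely the upper
logarithmic density of the good scales is at least `κ`. -/
theorem result (d : ℕ) (hd : 2 ≤ d) :
    (∀ᵐ ω ∂(P d (pc d)), ∀ R : ℕ, 1 ≤ R → ∀ ε : ℝ, 0 < ε → ∃ᶠ N in atTop, Good d R ε N ω) ∧
    (∀ᵐ ω ∂(P d (pc d)),
      liminf (fun N : ℕ => (largest d N ω : ℝ) / (2 * N + 1) ^ d) atTop = 0) ∧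
    (∀ R : ℕ, 1 ≤ R → ∀ ε : ℝ, 0 < ε → ∃ κ : ℝ, 0 < κ ∧ ∀ᵐ ω ∂(P d (pc d)),
      ∃ᶠ X : ℕ in atTop, κ * Real.log X ≤
        ∑ N ∈ Finset.Icc 1 X, {ω' | Good d R ε N ω'}.indicator (fun _ => (1 : ℝ) / N) ω) := by
  have hP : ∀ p : unitInterval, P d p = Q d p := fun p => rfl
  have h1 : ∀ᵐ ω ∂(P d (pc d)), ∀ R : ℕ, 1 ≤ R → ∀ ε : ℝ, 0 < ε →
      ∃ᶠ N in atTop, Good d R ε N ω := by
    have h2 : ∀ᵐ ω ∂(P d (pc d)), ∀ R : ℕ, 1 ≤ R → ∀ i : ℕ,
        ∃ᶠ N in atTop, ω ∈ Gd (d := d)
          (Pool.Agent.Y990.CB.th (Pool.Agent.Y990.CB.siteM d) (pc d)) R N (1 / ((i : ℝ) + 1)) := by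
      rw [ae_all_iff]
      intro R
      by_cases hR : 1 ≤ R
      · simp only [hR, true_implies]
        rw [ae_all_iff]
        intro i
        obtain ⟨κ, hκ, h3⟩ := as_density (d := d) (by omega) (ng d hd) hR
          (show 0 < 1 / ((i : ℝ) + 1) by positivity)
        rw [hP]
        filter_upwards [h3] with ω hω
        exact inf_of_density hκ hω
      · exact Eventually.of_forall fun ω h => absurd h hR
    filter_upwards [h2] with ω hω R hR ε hε
    obtain ⟨i, hi⟩ := exists_nat_one_div_lt hε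
    refine (hω R hR i).mono fun N hN => ?_
    exact (good_iff d R ε N ω).1 (Gd_mono hi.le hN)
  refine ⟨h1, ?_, ?_⟩
  · filter_upwards [h1] with ω hω
    have hb : ∀ N : ℕ, (0 : ℝ) ≤ (largest d N ω : ℝ) / (2 * N + 1) ^ d := fun N => by positivity
    have hbd : IsBoundedUnder (· ≥ ·) atTop
        (fun N : ℕ => (largest d N ω : ℝ) / (2 * N + 1) ^ d) :=
      isBoundedUnder_of ⟨0, hb⟩
    have hfr : ∀ ε : ℝ, 0 < ε → ∃ᶠ N : ℕ in atTop, (largest d N ω : ℝ) / (2 * N + 1) ^ d ≤ ε := by
      intro ε hε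
      refine (hω 1 le_rfl ε hε).mono fun N hN => ?_
      have h4 := hN.1
      rw [one_mul] at h4
      rw [div_le_iff₀ (by positivity)]
      exact h4.le
    have hcb : IsCoboundedUnder (· ≥ ·) atTop
        (fun N : ℕ => (largest d N ω : ℝ) / (2 * N + 1) ^ d) :=
      IsCoboundedUnder.of_frequently_le (hfr 1 one_pos)
    apply le_antisymm
    · apply le_of_forall_pos_le_add
      intro ε hε
      rw [zero_add]
      exact liminf_le_of_frequently_le (hfr ε hε) hbd
    · exact le_liminf_of_le hcb (Eventually.of_forall hb)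
  · intro R hR ε hε
    obtain ⟨κ, hκ, h3⟩ := as_density (d := d) (by omega) (ng d hd) hR hε
    refine ⟨κ, hκ, ?_⟩
    rw [hP]
    filter_upwards [h3] with ω hω
    refine hω.mono fun X hX => hX.trans ?_
    unfold F
    rw [Finset.range_eq_Ico]
    have hset : ∀ N : ℕ, {ω' | Good d R ε N ω'} = Gd (d := d)
        (Pool.Agent.Y990.CB.th (Pool.Agent.Y990.CB.siteM d) (pc d)) R N ε := by
      intro N
      ext ω'
      exact (good_iff d R ε N ω').symm
    have hterm : ∀ N : ℕ, {ω' | Good d R ε N ω'}.indicator (fun _ => (1 : ℝ) / N) ω =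
        (N : ℝ)⁻¹ * (Gd (d := d) (Pool.Agent.Y990.CB.th (Pool.Agent.Y990.CB.siteM d) (pc d)) R N
          ε).indicator 1 ω := by
      intro N
      rw [hset]
      by_cases h4 : ω ∈ Gd (d := d)
          (Pool.Agent.Y990.CB.th (Pool.Agent.Y990.CB.siteM d) (pc d)) R N ε
      · rw [Set.indicator_of_mem h4, Set.indicator_of_mem h4]
        simp
      · rw [Set.indicator_of_notMem h4, Set.indicator_of_notMem h4, mul_zero]
    rw [Finset.sum_congr rfl fun N _ => hterm N]
    have hz : ∑ N ∈ Finset.Ico 0 X, (N : ℝ)⁻¹ * (Gd (d := d)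
        (Pool.Agent.Y990.CB.th (Pool.Agent.Y990.CB.siteM d) (pc d)) R N ε).indicator 1 ω =
        ∑ N ∈ Finset.Ico 1 X, (N : ℝ)⁻¹ * (Gd (d := d)
        (Pool.Agent.Y990.CB.th (Pool.Agent.Y990.CB.siteM d) (pc d)) R N ε).indicator 1 ω := by
      rcases Nat.eq_zero_or_pos X with h0 | h0
      · subst h0; simp
      · rw [Finset.sum_eq_sum_Ico_succ_bot h0]
        simp
    rw [hz]
    apply Finset.sum_le_sum_of_subset_of_nonneg
    · intro N hN
      rw [Finset.mem_Ico] at hN
      rw [Finset.mem_Icc]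
      omega
    · intro N _ _
      exact mul_nonneg (by positivity) (ind_nonneg _ _)

end

end Pool.Agent.Results.MP_e13933_pr.AlmostSureShattering
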