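import Pool.Agent.Y990.CB.Poly

set_option autoImplicit false

open MeasureTheory Set Filter
open scoped Topology

/-!
Site percolation on `Z^d`, `d ≥ 2`, at the critical point: boxes of polynomial size around
macroscopically separated points are mutually disconnected, inside every macroscopic region, with
probability bounded below.
-/

namespace Pool.Agent.Results.MP_e13933_pr.MutualDisconnection

noncomputable section

/-- Vertices of `Z^d`. -/
abbrev V (d : ℕ) : Type := Fin d → ℤ

/-- The box of radius `N` around the origin. -/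
def box (d N : ℕ) : Set (V d) := {x | ∀ i, |x i| ≤ N}

/-- The sup norm. -/
def supNorm {d : ℕ} (v : V d) : ℕ := Finset.univ.sup (fun i => (v i).natAbs)

/-- The open subgraph inside the region `S`: two vertices at Euclidean distance one are joined if
both are open (`ω x = true`) and in `S`. -/
def openGraph {d : ℕ} (ω : V d → Bool) (S : Set (V d)) : SimpleGraph (V d) where
  Adj x y := ∑ i, |x i - y i| = 1 ∧ (x ∈ S ∧ ω x = true) ∧ (y ∈ S ∧ ω y = true)
  symm := ⟨fun x y ⟨h1, h2, h3⟩ => ⟨by simpa only [abs_sub_comm] using h1, h3, h2⟩⟩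
  loopless := ⟨fun x h => by simpa using h.1⟩

/-- The open cluster of `x` inside the region `S` (empty if `x` is closed or not in `S`). -/
def cluster {d : ℕ} (ω : V d → Bool) (S : Set (V d)) (x : V d) : Set (V d) :=
  {y | (ω x = true ∧ x ∈ S) ∧ (openGraph ω S).Reachable x y}

/-- Site percolation with parameter `p`: all vertices are open with probability `p`,
independently. -/
def P (d : ℕ) (p : unitInterval) : Measure (V d → Bool) :=
  Measure.infinitePi (fun _ : V d =>
    ENNReal.ofReal (p : ℝ) • Measure.dirac true + ENNReal.ofReal (1 - (p : ℝ)) • Measure.dirac false)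

/-- The percolation probability `θ_d(p)`. -/
def theta (d : ℕ) (p : unitInterval) : ℝ := (P d p).real {ω | (cluster ω univ 0).Infinite}

/-- The critical point `p_c(d)`, the supremum of the parameters with `θ_d(p) = 0`. -/
def pc (d : ℕ) : unitInterval :=
  ⟨sSup {t : ℝ | ∃ q : unitInterval, (q : ℝ) = t ∧ theta d q = 0}, by
    constructor
    · apply Real.sSup_nonneg
      rintro x ⟨q, rfl, _⟩
      exact q.2.1
    · apply Real.sSup_le
      · rintro x ⟨q, rfl, _⟩
        exact q.2.2
      · exact zero_le_one⟩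

/-- The boxes of radius `k` around `x` and around `y` are connected by an open path inside the box
of radius `L` around the origin. -/
def joined {d : ℕ} (L k : ℕ) (x y : V d) : Set (V d → Bool) :=
  {ω | ∃ u : V d, u - x ∈ box d k ∧ ∃ w : V d, w - y ∈ box d k ∧ w ∈ cluster ω (box d L) u}

lemma nd_mem {d : ℕ} {ω : V d → Bool} {x y : V d} :
    (∀ c ∈ (Pool.Agent.Y990.CB.siteM d).nd x y, ω c = true) ↔ ω x = true ∧ ω y = true := by
  show (∀ c : V d, c ∈ ({x, y} : Finset (V d)) → ω c = true) ↔ _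
  simp only [Finset.mem_insert, Finset.mem_singleton, forall_eq_or_imp, forall_eq]

open Pool.Agent.Y990.CB in
lemma adj_iff {d : ℕ} (ω : V d → Bool) (S : Set (V d)) (x y : V d) :
    (openGraph ω S).Adj x y ↔ (G (siteM d) ω S).Adj x y := by
  show (∑ i, |x i - y i| = 1 ∧ (x ∈ S ∧ ω x = true) ∧ (y ∈ S ∧ ω y = true)) ↔
    (∑ i, |x i - y i| = 1 ∧ x ∈ S ∧ y ∈ S ∧ ∀ c ∈ (siteM d).nd x y, ω c = true)
  rw [nd_mem]
  tauto

open Pool.Agent.Y990.CB in
lemma graph_eq {d : ℕ} (ω : V d → Bool) (S : Set (V d)) :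
    openGraph ω S = G (siteM d) ω S := by
  ext x y
  exact adj_iff ω S x y

open Pool.Agent.Y990.CB in
lemma cluster_sub {d : ℕ} (ω : V d → Bool) (S : Set (V d)) (x : V d) :
    cluster ω S x ⊆ cl (siteM d) ω S x := by
  rintro y ⟨-, h⟩
  rw [graph_eq] at h
  exact h

open Pool.Agent.Y990.CB in
lemma infinite_iff {d : ℕ} (ω : V d → Bool) (x : V d) :
    (cluster ω univ x).Infinite ↔ ω ∈ Perc (siteM d) x := by
  constructor
  · intro h
    exact h.mono (cluster_sub ω univ x)
  · intro h
    have hx : ω x = true := by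
      obtain ⟨y, hy, hyx⟩ := Set.Infinite.exists_notMem_finset h {x}
      have hyx' : y ≠ x := by simpa using hyx
      have hr : (G (siteM d) ω univ).Reachable x y := hy
      obtain ⟨q⟩ := hr
      cases q with
      | nil => exact absurd rfl hyx'
      | cons hadj _ => exact (nd_mem.1 hadj.2.2.2).1
    refine Set.Infinite.mono ?_ h
    intro y hy
    refine ⟨⟨hx, mem_univ x⟩, ?_⟩
    rw [graph_eq]
    exact hy

open Pool.Agent.Y990.CB in
lemma P_eq (d : ℕ) (p : unitInterval) : P d p = mu (siteM d) p := rfl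

open Pool.Agent.Y990.CB in
lemma theta_eq (d : ℕ) (p : unitInterval) : theta d p = th (siteM d) p := by
  unfold theta th
  rw [P_eq]
  congr 1
  ext ω
  exact infinite_iff ω 0

open Pool.Agent.Y990.CB in
lemma pc_eq (d : ℕ) : pc d = Pool.Agent.Y990.CB.pc (siteM d) := by
  apply Subtype.ext
  show sSup {t : ℝ | ∃ q : unitInterval, (q : ℝ) = t ∧ theta d q = 0} =
    sSup {x : ℝ | ∃ q : unitInterval, (q : ℝ) = x ∧ th (siteM d) q = 0}
  simp only [theta_eq]

open Pool.Agent.Y990.CB in
lemma box_eq (d N : ℕ) : box d N = Bo (0 : V d) N := by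
  ext x
  simp only [box, Bo, mem_ofPred_eq, Pi.zero_apply, sub_zero]

open Pool.Agent.Y990.CB in
lemma joined_sub {d : ℕ} (L k : ℕ) (x y : V d) :
    joined L k x y ⊆ Lk (siteM d) (Bo 0 L) (Bo x k) (Bo y k) := by
  rintro ω ⟨u, hu, w, hw, h⟩
  refine ⟨u, fun i => hu i, w, fun i => hw i, ?_⟩
  rw [← box_eq]
  exact cluster_sub ω _ u h

/-- **Mutually disconnected boxes at the critical point.**  For every `d ≥ 2` there is `C` such
that:

* for every vertex `v` and all `k` and `R ≥ 1` with `C (k + 1)^(2 d² + 3 d) R ≤ |v|^(1/2)`, the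
  boxes of radius `k` around `0` and `v` are connected inside the box of radius `R |v|` with
  `P_{p_c}`-probability at most `1 - 1 / (10^14 R)`;
* for all `K` points `x_1, …, x_K` of norm at most `N` and mutual distances at least `N / K`, all
  `R ≥ 1` and all `k` with `C (k + 1)^(2 d² + 3 d) K² R ≤ N^(1/2)`, the boxes of radius `k` around
  the points are pairwise not connected inside the box of radius `R N` with
  `P_{p_c}`-probability at least `(1 / (2 · 10^14 K R))^(K (K - 1) / 2)`. -/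
theorem result (d : ℕ) (hd : 2 ≤ d) : ∃ C : ℝ, 1 ≤ C ∧
    (∀ (v : V d) (k R : ℕ), 1 ≤ R →
      C * ((k : ℝ) + 1) ^ (2 * d ^ 2 + 3 * d) * R ≤ √(supNorm v : ℝ) →
      (P d (pc d)).real (joined (R * supNorm v) k 0 v) ≤ 1 - 1 / (10 ^ 14 * R)) ∧
    ∀ (K R k N : ℕ) (x : Fin K → V d), 1 ≤ R →
      C * ((k : ℝ) + 1) ^ (2 * d ^ 2 + 3 * d) * K ^ 2 * R ≤ √(N : ℝ) →
      (∀ i, x i ∈ box d N) → (∀ i j, i ≠ j → N ≤ K * supNorm (x i - x j)) →
      (1 / (2 * 10 ^ 14 * (K : ℝ) * R)) ^ (K.choose 2) ≤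
        (P d (pc d)).real {ω | ∀ i j, i ≠ j → ω ∉ joined (R * N) k (x i) (x j)} := by
  have hN : Pool.Agent.Y990.CB.Nd (Pool.Agent.Y990.CB.siteM d) := Pool.Agent.Y990.CB.nd_site
  have hQ : Pool.Agent.Y990.CB.Qm (Pool.Agent.Y990.CB.siteM d) := Pool.Agent.Y448.CB2.qm_site d
  obtain ⟨C1, hC1, h1⟩ := Pool.Agent.Y990.CB.conP hd _ hN hQ
  obtain ⟨C2, hC2, h2⟩ := Pool.Agent.Y990.CB.polyK hd _ hN hQ
  rw [pc_eq]
  refine ⟨max C1 C2, hC1.trans (le_max_left _ _), ?_, ?_⟩
  · intro v k R hR hC
    have hC' : C1 * ((k : ℝ) + 1) ^ (2 * d ^ 2 + 3 * d) * R ≤ √(supNorm v : ℝ) := by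
      refine le_trans ?_ hC
      have : C1 ≤ max C1 C2 := le_max_left _ _
      gcongr
    refine le_trans ?_ (h1 v k R hR hC')
    rw [P_eq]
    exact measureReal_mono (joined_sub _ k 0 v) (measure_ne_top _ _)
  · intro K R k N x hR hC hx hxx
    have hC' : C2 * ((k : ℝ) + 1) ^ (2 * d ^ 2 + 3 * d) * K ^ 2 * R ≤ √(N : ℝ) := by
      refine le_trans ?_ hC
      have : C2 ≤ max C1 C2 := le_max_right _ _
      gcongr
    have hx' : ∀ i, Pool.Agent.Y990.CB.nm (x i) ≤ N := by
      intro i
      refine Finset.sup_le (fun j _ => ?_)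
      have h3 : |x i j| ≤ (N : ℤ) := hx i j
      rw [Int.abs_eq_natAbs] at h3
      exact_mod_cast h3
    refine le_trans (h2 K R k N x hR hC' hx' hxx) ?_
    rw [P_eq]
    refine measureReal_mono ?_ (measure_ne_top _ _)
    intro ω hω i j hij hj
    exact hω i j hij (joined_sub _ k _ _ hj)

end

end Pool.Agent.Results.MP_e13933_pr.MutualDisconnection
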