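import Pool.Agent.W783.Perc.Fin

set_option autoImplicit false

open MeasureTheory Set Filter
open scoped Topology

/-!
Site percolation on `Z^(n+1)`, `n ≥ 1`, with additional weak bonds in one direction on a sparse set
of lines. With long additional bonds the transition is continuous for every positive strength, and
the critical point tends to the critical point of nearest-neighbour site percolation when the
strength tends to zero. With additional bonds of bounded length: arbitrarily close to
nearest-neighbour site percolation there are models of finite range with `θ(p_c) ≤ ε`.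
-/

namespace Pool.Agent.Results.MP_e13933_pr.NearbyContinuousModels

noncomputable section

/-! ### Nearest-neighbour site percolation -/

/-- Vertices of `Z^(n+1)`, written as `Z x Z^n`. -/
abbrev V (n : ℕ) : Type := ℤ × (Fin n → ℤ)

/-- Nearest neighbours: vertices at Euclidean distance one. -/
def NN {n : ℕ} (x y : V n) : Prop := |x.1 - y.1| + ∑ i, |x.2 i - y.2 i| = 1

/-- The Bernoulli law of one coordinate: `true` (open) with probability `q`. -/
def bern (q : unitInterval) : Measure Bool :=
  ENNReal.ofReal (q : ℝ) • Measure.dirac true + ENNReal.ofReal (1 - (q : ℝ)) • Measure.dirac false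

/-- The open subgraph of nearest-neighbour site percolation. -/
def siteGraph {n : ℕ} (ω : V n → Bool) : SimpleGraph (V n) where
  Adj x y := NN x y ∧ ω x = true ∧ ω y = true
  symm := ⟨fun x y ⟨h1, h2, h3⟩ =>
    ⟨by unfold NN at h1 ⊢; simpa only [abs_sub_comm] using h1, h3, h2⟩⟩
  loopless := ⟨fun x h => by simpa [NN] using h.1⟩

/-- The percolation probability of nearest-neighbour site percolation on `Z^(n+1)`: the origin is
open and its open cluster is infinite. -/
def theta (n : ℕ) (a : unitInterval) : ℝ :=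
  (Measure.infinitePi (fun _ : V n => bern a)).real
    {ω | ω 0 = true ∧ {y | (siteGraph ω).Reachable 0 y}.Infinite}

/-- The supremum of the parameters at which the function `f` vanishes (`0` if there are none). -/
def critical (f : unitInterval → ℝ) : unitInterval :=
  ⟨sSup {x : ℝ | ∃ q : unitInterval, (q : ℝ) = x ∧ f q = 0}, by
    constructor
    · apply Real.sSup_nonneg
      rintro x ⟨q, rfl, _⟩
      exact q.2.1
    · apply Real.sSup_le
      · rintro x ⟨q, rfl, _⟩
        exact q.2.2
      · exact zero_le_one⟩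

/-- The critical point `p_c(n+1)` of nearest-neighbour site percolation on `Z^(n+1)`. -/
def pc (n : ℕ) : unitInterval := critical (theta n)

/-! ### The models with additional bonds -/

/-- `x` and `y` can be joined by an additional bond: they lie on the same special line (direction of
the first coordinate, all other coordinates divisible by `m`), at distance at least two. -/
def Special {n : ℕ} (m : ℕ) (x y : V n) : Prop :=
  x.2 = y.2 ∧ (∀ i, (m : ℤ) ∣ x.2 i) ∧ 2 ≤ (x.1 - y.1).natAbs

/-- Length of a pair in the first direction. -/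
def len {n : ℕ} (e : Sym2 (V n)) : ℕ :=
  Sym2.lift ⟨fun x y : V n => (x.1 - y.1).natAbs, fun x y => by
    show (x.1 - y.1).natAbs = (y.1 - x.1).natAbs
    omega⟩ e

/-- The probability `1 - exp (-β k^(-s))` of an additional bond of length `k`. -/
def strength (β : NNReal) (s : ℝ) (k : ℕ) : unitInterval :=
  ⟨1 - Real.exp (-((β : ℝ) * (k : ℝ) ^ (-s))), by
    have h : 0 ≤ (β : ℝ) * (k : ℝ) ^ (-s) := mul_nonneg β.2 (Real.rpow_nonneg (Nat.cast_nonneg k) _)
    constructor
    · rw [sub_nonneg]
      exact Real.exp_le_one_iff.mpr (by linarith)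
    · linarith [Real.exp_pos (-((β : ℝ) * (k : ℝ) ^ (-s)))]⟩

/-- The parameters of the coordinates: sites (`Sum.inl x`) are open with probability `a`; the
coordinate `Sum.inr e` of a pair `e` of length `k` is open with probability `1 - exp (-β k^(-s))`
(only the coordinates of the special pairs are used by the model). -/
def par {n : ℕ} (a : unitInterval) (β : NNReal) (s : ℝ) : V n ⊕ Sym2 (V n) → unitInterval
  | Sum.inl _ => a
  | Sum.inr e => strength β s (len e)

/-- The open subgraph when the additional bonds of length at most `K` are used: two open sites are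
joined if they are nearest neighbours or if they form a special pair of length at most `K` whose
additional bond is open. -/
def openGraph {n : ℕ} (m : ℕ) (K : ℕ∞) (ω : V n ⊕ Sym2 (V n) → Bool) : SimpleGraph (V n) where
  Adj x y := ω (Sum.inl x) = true ∧ ω (Sum.inl y) = true ∧
    (NN x y ∨ (Special m x y ∧ ((x.1 - y.1).natAbs : ℕ∞) ≤ K ∧ ω (Sum.inr s(x, y)) = true))
  symm := ⟨fun x y ⟨h1, h2, h3⟩ => ⟨h2, h1, by
    rcases h3 with h3 | ⟨⟨h3, h4, h5⟩, h6, h7⟩
    · left; unfold NN at h3 ⊢; simpa only [abs_sub_comm] using h3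
    · right
      refine ⟨⟨h3.symm, fun i => by rw [← h3]; exact h4 i, by omega⟩, ?_, by rwa [Sym2.eq_swap]⟩
      rw [show (y.1 - x.1).natAbs = (x.1 - y.1).natAbs by omega]
      exact h6⟩⟩
  loopless := ⟨fun x h => by
    rcases h.2.2 with h3 | ⟨⟨h3, h4, h5⟩, h6, h7⟩
    · simp [NN] at h3
    · simp at h5⟩

/-- The percolation probability of the model with additional bonds of length at most `K` (`K = ⊤`:
no restriction). -/
def thetaL (n m : ℕ) (s : ℝ) (β : NNReal) (K : ℕ∞) (a : unitInterval) : ℝ :=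
  (Measure.infinitePi (fun c => bern (par (n := n) a β s c))).real
    {ω | ω (Sum.inl 0) = true ∧ {y | (openGraph m K ω).Reachable 0 y}.Infinite}

/-- The critical point of the model with additional bonds of length at most `K`. -/
def pcL (n m : ℕ) (s : ℝ) (β : NNReal) (K : ℕ∞) : unitInterval := critical (thetaL n m s β K)

/-! ### Bridge to the library -/

open Pool.Agent.W783.PC (pm Perc G cl DepOn isNN isLg prob EdI Ed lrp)

lemma bern_eq (q : unitInterval) : bern q = Pool.Agent.W783.PC.bern q := rfl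

lemma critical_eq (f : unitInterval → ℝ) : critical f = Pool.Agent.W783.PC.crit f := rfl

lemma isNN_mk {n : ℕ} (x y : V n) : isNN s(x, y) ↔ NN x y :=
  Pool.Agent.W402.PC.isNN_iff

lemma isLg_mk {n : ℕ} (m : ℕ) (x y : V n) : isLg m s(x, y) ↔ Special m x y :=
  Pool.Agent.W402.PC.isLg_iff

open scoped Classical in
/-- Open all nearest-neighbour bonds. -/
def fill {n : ℕ} (ω : V n ⊕ Sym2 (V n) → Bool) : V n ⊕ Sym2 (V n) → Bool
  | Sum.inl x => ω (Sum.inl x)
  | Sum.inr e => if isNN e then true else ω (Sum.inr e)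

open scoped Classical in
lemma fill_meas {n : ℕ} : Measurable (fill (n := n)) := by
  rw [measurable_pi_iff]
  rintro (x | e)
  · exact measurable_pi_apply _
  · by_cases h : isNN e
    · have : (fun ω : V n ⊕ Sym2 (V n) → Bool => fill ω (Sum.inr e)) = fun _ => true := by
        ext ω; simp [fill, h]
      rw [this]; exact measurable_const
    · have : (fun ω : V n ⊕ Sym2 (V n) → Bool => fill ω (Sum.inr e)) = fun ω => ω (Sum.inr e) := by
        ext ω; simp [fill, h]
      rw [this]; exact measurable_pi_apply _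

/-- The set of the bonds of the model with cut-off `K` in the library. -/
def bondSet {n : ℕ} (m : ℕ) (K : ℕ∞) : Set (Sym2 (V n)) :=
  {e | isNN e ∨ (isLg m e ∧ ((Pool.Agent.W783.PC.len e : ℕ) : ℕ∞) ≤ K)}

lemma bondSet_top {n : ℕ} (m : ℕ) : bondSet (n := n) m ⊤ = EdI m := by
  ext e; simp [bondSet, EdI]

lemma bondSet_nat {n : ℕ} (m K : ℕ) : bondSet (n := n) m (K : ℕ∞) = Ed m K := by
  ext e; simp [bondSet, Ed]

lemma ne_of_NN {n : ℕ} {x y : V n} (h : NN x y) : x ≠ y := by
  rintro rfl
  simp [NN] at h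

lemma ne_of_special {n m : ℕ} {x y : V n} (h : Special m x y) : x ≠ y := by
  rintro rfl
  have := h.2.2
  simp at this

/-- the open graph of the library after opening the nearest-neighbour bonds -/
lemma graph_eq {n : ℕ} (m : ℕ) (K : ℕ∞) (ω : V n ⊕ Sym2 (V n) → Bool) :
    G (bondSet m K) (fill ω) univ = openGraph m K ω := by
  classical
  ext x y
  have hnn := isNN_mk x y
  have hlg := isLg_mk m x y
  show (x ≠ y ∧ x ∈ univ ∧ y ∈ univ ∧ s(x, y) ∈ bondSet m K ∧ fill ω (Sum.inl x) = true ∧
    fill ω (Sum.inl y) = true ∧ fill ω (Sum.inr s(x, y)) = true) ↔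
    (ω (Sum.inl x) = true ∧ ω (Sum.inl y) = true ∧
    (NN x y ∨ (Special m x y ∧ ((x.1 - y.1).natAbs : ℕ∞) ≤ K ∧ ω (Sum.inr s(x, y)) = true)))
  have hlen : Pool.Agent.W783.PC.len s(x, y) = (x.1 - y.1).natAbs := rfl
  constructor
  · rintro ⟨h0, -, -, h1, h2, h3, h4⟩
    refine ⟨h2, h3, ?_⟩
    by_cases hN : NN x y
    · exact Or.inl hN
    · right
      rcases h1 with h1 | ⟨h1, h1'⟩
      · exact absurd (hnn.1 h1) hN
      · refine ⟨hlg.1 h1, by rw [← hlen]; exact h1', ?_⟩
        have : fill ω (Sum.inr s(x, y)) = ω (Sum.inr s(x, y)) := by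
          simp only [fill]
          rw [if_neg (fun h => hN (hnn.1 h))]
        rw [← this]; exact h4
  · rintro ⟨h2, h3, h4⟩
    rcases h4 with h4 | ⟨h4, h5, h6⟩
    · refine ⟨ne_of_NN h4, mem_univ _, mem_univ _, Or.inl (hnn.2 h4), h2, h3, ?_⟩
      simp only [fill]
      rw [if_pos (hnn.2 h4)]
    · refine ⟨ne_of_special h4, mem_univ _, mem_univ _, Or.inr ⟨hlg.2 h4, by rw [hlen]; exact h5⟩,
        h2, h3, ?_⟩
      simp only [fill]
      split_ifs
      · rfl
      · exact h6

/-- the event of the model -/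
def ev {n : ℕ} (m : ℕ) (K : ℕ∞) : Set (V n ⊕ Sym2 (V n) → Bool) :=
  {ω | ω (Sum.inl 0) = true ∧ {y | (openGraph m K ω).Reachable 0 y}.Infinite}

lemma ev_eq {n : ℕ} (m : ℕ) (K : ℕ∞) : ev (n := n) m K = fill ⁻¹' (Perc (bondSet m K) 0) := by
  ext ω
  show (ω (Sum.inl 0) = true ∧ {y | (openGraph m K ω).Reachable 0 y}.Infinite) ↔
    {y | (G (bondSet m K) (fill ω) univ).Reachable 0 y}.Infinite
  rw [graph_eq]
  refine ⟨fun h => h.2, fun h => ⟨?_, h⟩⟩
  by_contra hc
  apply h
  refine (Set.finite_singleton (0 : V n)).subset ?_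
  intro y hy
  rw [Set.mem_ofPred_eq, SimpleGraph.reachable_iff_reflTransGen] at hy
  rcases Relation.ReflTransGen.cases_head hy with h1 | ⟨z, h1, -⟩
  · exact h1.symm
  · exact absurd h1.1 hc

lemma ev_meas {n : ℕ} (m : ℕ) (K : ℕ∞) : MeasurableSet (ev (n := n) m K) := by
  rw [ev_eq]
  exact fill_meas (Pool.Agent.W975.PC.s_perc_meas n _ 0)

/-- the coordinates which are used -/
def used {n : ℕ} (m : ℕ) : Set (V n ⊕ Sym2 (V n)) :=
  {c | (∃ x, c = Sum.inl x) ∨ ∃ x y, Special m x y ∧ c = Sum.inr s(x, y)}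

lemma ev_dep {n : ℕ} (m : ℕ) (K : ℕ∞) : DepOn (ev (n := n) m K) (used m) := by
  intro ω ω' h
  have hl : ∀ x, ω (Sum.inl x) = ω' (Sum.inl x) := fun x => h _ (Or.inl ⟨x, rfl⟩)
  have hg : openGraph m K ω = openGraph m K ω' := by
    ext x y
    show (ω (Sum.inl x) = true ∧ ω (Sum.inl y) = true ∧
      (NN x y ∨ (Special m x y ∧ ((x.1 - y.1).natAbs : ℕ∞) ≤ K ∧ ω (Sum.inr s(x, y)) = true))) ↔
      (ω' (Sum.inl x) = true ∧ ω' (Sum.inl y) = true ∧
      (NN x y ∨ (Special m x y ∧ ((x.1 - y.1).natAbs : ℕ∞) ≤ K ∧ ω' (Sum.inr s(x, y)) = true)))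
    rw [hl x, hl y]
    by_cases hs : Special m x y
    · rw [h _ (Or.inr ⟨x, y, hs, rfl⟩)]
    · simp [hs]
  show (ω (Sum.inl 0) = true ∧ {y | (openGraph m K ω).Reachable 0 y}.Infinite) ↔
    (ω' (Sum.inl 0) = true ∧ {y | (openGraph m K ω').Reachable 0 y}.Infinite)
  rw [hg, hl 0]

lemma fill_ae {n m : ℕ} (a : unitInterval) (β : NNReal) (s : ℝ) :
    ∀ᵐ ω ∂(pm (prob (n := n) a 1 β s m)), fill ω = ω := by
  classical
  have h : ∀ᵐ ω ∂(pm (prob (n := n) a 1 β s m)), ∀ e : Sym2 (V n), isNN e →
      ω (Sum.inr e) = true := by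
    rw [ae_all_iff]
    intro e
    by_cases he : isNN e
    · have h0 : prob (n := n) a 1 β s m (Sum.inr e) = 1 := by
        unfold prob
        simp only
        rw [if_pos he]
      have h2 : pm (prob (n := n) a 1 β s m) {ω | ω (Sum.inr e) = false} = 0 := by
        rw [Pool.Agent.W402.PC.pm_coord, h0, Pool.Agent.W402.PC.bern_false]
        simp
      have h3 : ∀ᵐ ω ∂(pm (prob (n := n) a 1 β s m)), ¬ ω (Sum.inr e) = false := by
        rw [ae_iff]
        simpa using h2
      filter_upwards [h3] with ω hω _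
      simpa using hω
    · exact Filter.Eventually.of_forall fun ω h => absurd h he
  filter_upwards [h] with ω hω
  funext c
  rcases c with x | e
  · rfl
  · simp only [fill]
    split_ifs with he
    · exact (hω e he).symm
    · rfl

lemma not_NN_of_special {n m : ℕ} {x y : V n} (h : Special m x y) : ¬ NN x y := by
  intro h'
  have h1 := h.2.2
  unfold NN at h'
  have h2 : 0 ≤ ∑ i, |x.2 i - y.2 i| := Finset.sum_nonneg fun i _ => abs_nonneg _
  have h3 : |x.1 - y.1| ≤ 1 := by linarith
  rw [abs_le] at h3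
  omega

lemma law_eq {n m : ℕ} (a : unitInterval) (β : NNReal) (s : ℝ) (K : ℕ∞) :
    thetaL n m s β K a = (pm (prob (n := n) a 1 β s m)).real (Perc (bondSet m K) 0) := by
  classical
  have h1 : pm (prob (n := n) a 1 β s m) (Perc (bondSet m K) 0) =
      pm (prob (n := n) a 1 β s m) (ev m K) := by
    apply measure_congr
    filter_upwards [fill_ae a β s] with ω hω
    apply propext
    rw [ev_eq]
    show ω ∈ Perc (bondSet m K) 0 ↔ fill ω ∈ Perc (bondSet m K) 0
    rw [hω]
  have h2 : pm (prob (n := n) a 1 β s m) (ev m K) = pm (par (n := n) a β s) (ev m K) := by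
    refine Pool.Agent.W148.PC.pm_congr _ _ (used m) ?_ (ev_meas m K) (ev_dep m K)
    rintro c (⟨x, rfl⟩ | ⟨x, y, h, rfl⟩)
    · rfl
    · unfold prob par
      simp only
      rw [if_neg (fun h' => not_NN_of_special h ((isNN_mk x y).1 h')),
        if_pos ((isLg_mk m x y).2 h)]
      rfl
  unfold thetaL
  rw [Measure.real, Measure.real, h1, h2]
  rfl

lemma thetaL_top {n m : ℕ} (s : ℝ) (β : NNReal) (a : unitInterval) :
    thetaL n m s β ⊤ a = Pool.Agent.W783.PC.theta n a 1 β s m := by
  rw [law_eq, bondSet_top]; rfl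

lemma thetaL_nat {n m : ℕ} (s : ℝ) (β : NNReal) (K : ℕ) (a : unitInterval) :
    thetaL n m s β (K : ℕ∞) a = Pool.Agent.W783.PC.thetaK n a 1 β s m K := by
  rw [law_eq, bondSet_nat]; rfl

/-! ### pure site percolation -/

/-- extend a site configuration by open bonds -/
def ext {n : ℕ} (ω : V n → Bool) : V n ⊕ Sym2 (V n) → Bool := Sum.elim ω (fun _ => true)

lemma ext_meas {n : ℕ} : Measurable (ext (n := n)) := by
  rw [measurable_pi_iff]
  rintro (x | e)
  · exact measurable_pi_apply x
  · exact measurable_const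

/-- restriction to the sites -/
def res {n : ℕ} (ω : V n ⊕ Sym2 (V n) → Bool) : V n → Bool := fun x => ω (Sum.inl x)

lemma res_meas {n : ℕ} : Measurable (res (n := n)) := by
  rw [measurable_pi_iff]
  intro x
  exact measurable_pi_apply _

/-- the site event -/
def evS (n : ℕ) : Set (V n → Bool) :=
  {ω | ω 0 = true ∧ {y | (siteGraph ω).Reachable 0 y}.Infinite}

lemma siteGraph_res {n : ℕ} (m : ℕ) (ω : V n ⊕ Sym2 (V n) → Bool) :
    siteGraph (res ω) = openGraph m 0 ω := by
  ext x y
  show (NN x y ∧ ω (Sum.inl x) = true ∧ ω (Sum.inl y) = true) ↔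
    (ω (Sum.inl x) = true ∧ ω (Sum.inl y) = true ∧
      (NN x y ∨ (Special m x y ∧ ((x.1 - y.1).natAbs : ℕ∞) ≤ 0 ∧ ω (Sum.inr s(x, y)) = true)))
  constructor
  · rintro ⟨h1, h2, h3⟩
    exact ⟨h2, h3, Or.inl h1⟩
  · rintro ⟨h2, h3, h1 | ⟨h4, h5, -⟩⟩
    · exact ⟨h1, h2, h3⟩
    · exfalso
      have h6 := h4.2.2
      have h7 : (x.1 - y.1).natAbs = 0 := by
        simpa using h5
      omega

lemma res_ev {n : ℕ} (m : ℕ) : res ⁻¹' (evS n) = ev m 0 := by
  ext ω
  show (ω (Sum.inl 0) = true ∧ {y | (siteGraph (res ω)).Reachable 0 y}.Infinite) ↔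
    (ω (Sum.inl 0) = true ∧ {y | (openGraph m 0 ω).Reachable 0 y}.Infinite)
  rw [siteGraph_res m]

lemma evS_meas {n : ℕ} : MeasurableSet (evS n) := by
  have h : evS n = ext ⁻¹' (ev 0 0) := by
    rw [← res_ev 0]
    rfl
  rw [h]
  exact ext_meas (ev_meas 0 0)

instance (q : unitInterval) : IsProbabilityMeasure (bern q) := by
  rw [bern_eq]; infer_instance

lemma map_res {n : ℕ} (r : V n ⊕ Sym2 (V n) → unitInterval) :
    (Measure.infinitePi (fun c => bern (r c))).map res =
      Measure.infinitePi (fun x : V n => bern (r (Sum.inl x))) := by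
  classical
  apply Measure.eq_infinitePi
  intro S t ht
  rw [Measure.map_apply res_meas (MeasurableSet.pi S.countable_toSet (fun i _ => ht i))]
  have h1 : res ⁻¹' (Set.pi (S : Set (V n)) t) =
      Set.pi ((S.map ⟨Sum.inl, Sum.inl_injective⟩ : Finset (V n ⊕ Sym2 (V n))) :
        Set (V n ⊕ Sym2 (V n))) (Sum.elim t (fun _ => univ)) := by
    ext ω
    simp only [Set.mem_preimage, Set.mem_pi, Finset.mem_coe, Finset.mem_map,
      Function.Embedding.coeFn_mk]
    constructor
    · rintro h c ⟨x, hx, rfl⟩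
      exact h x hx
    · intro h x hx
      exact h (Sum.inl x) ⟨x, hx, rfl⟩
  rw [h1, Measure.infinitePi_pi]
  · rw [Finset.prod_map]
    rfl
  · intro c hc
    rw [Finset.mem_map] at hc
    obtain ⟨x, hx, rfl⟩ := hc
    exact ht x

lemma theta_eq {n : ℕ} (a : unitInterval) : theta n a = Pool.Agent.W783.PC.thetaZ n a 1 := by
  have h1 : theta n a = thetaL n 1 1 0 0 a := by
    show (Measure.infinitePi (fun _ : V n => bern a)).real (evS n) =
      (Measure.infinitePi (fun c => bern (par (n := n) a 0 1 c))).real (ev 1 0)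
    have h2 := map_res (n := n) (par a 0 1)
    have h3 : (fun x : V n => bern (par (n := n) a 0 1 (Sum.inl x))) = fun _ => bern a := rfl
    rw [h3] at h2
    rw [← h2, ← res_ev 1, Measure.real, Measure.real, Measure.map_apply res_meas evS_meas]
  have h4 : bondSet (n := n) 1 0 = Ed 1 0 := by
    have := bondSet_nat (n := n) 1 0
    simpa using this
  have h5 : Ed (n := n) 1 0 = {e : Sym2 (V n) | isNN e} := by
    ext e
    constructor
    · rintro (h | ⟨⟨x, y, rfl, hxy⟩, h'⟩)
      · exact h
      · exfalso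
        have h6 : (x.1 - y.1).natAbs ≤ 0 := h'
        have h7 := hxy.2.2
        omega
    · intro h
      exact Or.inl h
  rw [h1, law_eq, h4, h5]
  unfold Pool.Agent.W783.PC.thetaZ
  rw [Measure.real, Measure.real]
  congr 1
  refine Pool.Agent.W148.PC.pm_congr _ _ (Pool.Agent.W783.PC.rel {e : Sym2 (V n) | isNN e}) ?_
    (Pool.Agent.W975.PC.s_perc_meas n _ 0) (Pool.Agent.W148.PC.perc_dep _ 0)
  rintro c (⟨x, rfl⟩ | ⟨e, he, rfl⟩)
  · rfl
  · unfold prob
    simp only
    exact if_pos he

/-- Site percolation on `Z^(n+1)`, `n ≥ 1`, with additional bonds of strength `β` and decay `s`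
(`1 < s < 2`) on the lines in the first direction whose other coordinates are divisible by `m`.
(1) Without restriction of the length: for every `β > 0` the critical point is in `(0, 1)` and there
is no infinite cluster at the critical point. (2) When `β → 0` the critical point tends to the
critical point `pc n` of nearest-neighbour site percolation. (3) For every `ε > 0`, if `β` is small
and `K` is large then the model of finite range `K` has a critical point at distance at most `ε` from
`pc n`, and its percolation probability at the critical point is at most `ε`. -/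
theorem result (n m : ℕ) (s : ℝ) (hn : 1 ≤ n) (hm : 1 ≤ m) (hs : 1 < s) (hs2 : s < 2) :
    (∀ β : NNReal, 0 < β → 0 < pcL n m s β ⊤ ∧ pcL n m s β ⊤ < 1 ∧
      thetaL n m s β ⊤ (pcL n m s β ⊤) = 0) ∧
    Tendsto (fun β : NNReal => pcL n m s β ⊤) (𝓝 0) (𝓝 (pc n)) ∧
    ∀ ε : ℝ, 0 < ε → ∃ β₀ : NNReal, 0 < β₀ ∧ ∀ β : NNReal, 0 < β → β ≤ β₀ → ∃ K₀ : ℕ,
      ∀ K : ℕ, K₀ ≤ K → |(pcL n m s β K : ℝ) - pc n| ≤ ε ∧ thetaL n m s β K (pcL n m s β K) ≤ ε := by
  have e1 : ∀ β, pcL n m s β ⊤ = Pool.Agent.W783.PC.acS n m s β := by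
    intro β
    unfold pcL Pool.Agent.W783.PC.acS
    rw [critical_eq]
    congr 1
    funext a
    exact thetaL_top s β a
  have e2 : ∀ β (K : ℕ), pcL n m s β (K : ℕ∞) = Pool.Agent.W783.PC.acSK n m s β K := by
    intro β K
    unfold pcL Pool.Agent.W783.PC.acSK
    rw [critical_eq]
    congr 1
    funext a
    exact thetaL_nat s β K a
  have e3 : pc n = Pool.Agent.W783.PC.acZ n := by
    unfold pc Pool.Agent.W783.PC.acZ
    rw [critical_eq]
    congr 1
    funext a
    exact theta_eq a
  obtain ⟨h1, h2⟩ := Pool.Agent.W783.PC.site_main hn hm hs hs2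
  refine ⟨fun β hβ => ?_, ?_, fun ε hε => ?_⟩
  · rw [thetaL_top, e1]
    exact h1 β hβ
  · simp only [e1, e3]
    rw [tendsto_subtype_rng]
    exact h2
  · obtain ⟨β0, h3, h4⟩ := Pool.Agent.W783.PC.site_finite hn hm hs hs2 hε
    refine ⟨β0, h3, fun β hβ hβ0 => ?_⟩
    obtain ⟨K0, h5⟩ := h4 β hβ hβ0
    refine ⟨K0, fun K hK => ?_⟩
    rw [thetaL_nat, e2, e3]
    exact h5 K hK

end

end Pool.Agent.Results.MP_e13933_pr.NearbyContinuousModels
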