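import Pool.Agent.Y990.CB.Fin

set_option autoImplicit false

open MeasureTheory Set Filter
open scoped Topology

/-!
Site percolation on `Z^d`, `d ≥ 2`, at the critical point: what a positive percolation probability
at `p_c` would entail.
-/

namespace Pool.Agent.Results.MP_e13933_pr.StrangeInfiniteCluster

noncomputable section

/-- Vertices of `Z^d`. -/
abbrev V (d : ℕ) : Type := Fin d → ℤ

/-- The box of radius `N` around the origin. -/
def box (d N : ℕ) : Set (V d) := {x | ∀ i, |x i| ≤ N}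

/-- The sup norm. -/
def supNorm {d : ℕ} (v : V d) : ℕ := Finset.univ.sup (fun i => (v i).natAbs)

/-- The open subgraph inside the region `S`: two vertices at Euclidean distance one are joined if
both are open (`ω x = true`) and in `S`. -/
def openGraph {d : ℕ} (ω : V d → Bool) (S : Set (V d)) : SimpleGraph (V d) where
  Adj x y := ∑ i, |x i - y i| = 1 ∧ (x ∈ S ∧ ω x = true) ∧ (y ∈ S ∧ ω y = true)
  symm := ⟨fun x y ⟨h1, h2, h3⟩ => ⟨by simpa only [abs_sub_comm] using h1, h3, h2⟩⟩
  loopless := ⟨fun x h => by simpa using h.1⟩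

/-- The open cluster of `x` inside the region `S` (empty if `x` is closed or not in `S`). -/
def cluster {d : ℕ} (ω : V d → Bool) (S : Set (V d)) (x : V d) : Set (V d) :=
  {y | (ω x = true ∧ x ∈ S) ∧ (openGraph ω S).Reachable x y}

/-- Site percolation with parameter `p`: all vertices are open with probability `p`,
independently. -/
def P (d : ℕ) (p : unitInterval) : Measure (V d → Bool) :=
  Measure.infinitePi (fun _ : V d =>
    ENNReal.ofReal (p : ℝ) • Measure.dirac true + ENNReal.ofReal (1 - (p : ℝ)) • Measure.dirac false)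

/-- The percolation probability `θ_d(p)`. -/
def theta (d : ℕ) (p : unitInterval) : ℝ := (P d p).real {ω | (cluster ω univ 0).Infinite}

/-- The critical point `p_c(d)`, the supremum of the parameters with `θ_d(p) = 0`. -/
def pc (d : ℕ) : unitInterval :=
  ⟨sSup {t : ℝ | ∃ q : unitInterval, (q : ℝ) = t ∧ theta d q = 0}, by
    constructor
    · apply Real.sSup_nonneg
      rintro x ⟨q, rfl, _⟩
      exact q.2.1
    · apply Real.sSup_le
      · rintro x ⟨q, rfl, _⟩
        exact q.2.2
      · exact zero_le_one⟩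

/-- The boundary of the box of radius `N`: the vertices with sup norm `N`. -/
def sphere (d N : ℕ) : Set (V d) := {x | x ∈ box d N ∧ ∃ i, |x i| = N}

/-- At least `K` distinct open clusters of the box of radius `L` meet both the box of radius `N`
and the boundary of the box of radius `L`. -/
def manyCrossing (d N L K : ℕ) : Set (V d → Bool) :=
  {ω | ∃ x : Fin K → V d,
    (∀ i, x i ∈ box d N ∧ (cluster ω (box d L) (x i) ∩ sphere d L).Nonempty) ∧
    ∀ i j, i ≠ j → x j ∉ cluster ω (box d L) (x i)}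

lemma nd_mem {d : ℕ} {ω : V d → Bool} {x y : V d} :
    (∀ c ∈ (Pool.Agent.Y990.CB.siteM d).nd x y, ω c = true) ↔ ω x = true ∧ ω y = true := by
  show (∀ c : V d, c ∈ ({x, y} : Finset (V d)) → ω c = true) ↔ _
  simp only [Finset.mem_insert, Finset.mem_singleton, forall_eq_or_imp, forall_eq]

open Pool.Agent.Y990.CB in
lemma adj_iff {d : ℕ} (ω : V d → Bool) (S : Set (V d)) (x y : V d) :
    (openGraph ω S).Adj x y ↔ (G (siteM d) ω S).Adj x y := by
  show (∑ i, |x i - y i| = 1 ∧ (x ∈ S ∧ ω x = true) ∧ (y ∈ S ∧ ω y = true)) ↔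
    (∑ i, |x i - y i| = 1 ∧ x ∈ S ∧ y ∈ S ∧ ∀ c ∈ (siteM d).nd x y, ω c = true)
  rw [nd_mem]
  tauto

open Pool.Agent.Y990.CB in
lemma graph_eq {d : ℕ} (ω : V d → Bool) (S : Set (V d)) :
    openGraph ω S = G (siteM d) ω S := by
  ext x y
  exact adj_iff ω S x y

open Pool.Agent.Y990.CB in
lemma cluster_sub {d : ℕ} (ω : V d → Bool) (S : Set (V d)) (x : V d) :
    cluster ω S x ⊆ cl (siteM d) ω S x := by
  rintro y ⟨-, h⟩
  rw [graph_eq] at h
  exact h

open Pool.Agent.Y990.CB in
lemma infinite_iff {d : ℕ} (ω : V d → Bool) (x : V d) :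
    (cluster ω univ x).Infinite ↔ ω ∈ Perc (siteM d) x := by
  constructor
  · intro h
    exact h.mono (cluster_sub ω univ x)
  · intro h
    have hx : ω x = true := by
      obtain ⟨y, hy, hyx⟩ := Set.Infinite.exists_notMem_finset h {x}
      have hyx' : y ≠ x := by simpa using hyx
      have hr : (G (siteM d) ω univ).Reachable x y := hy
      obtain ⟨q⟩ := hr
      cases q with
      | nil => exact absurd rfl hyx'
      | cons hadj _ => exact (nd_mem.1 hadj.2.2.2).1
    refine Set.Infinite.mono ?_ h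
    intro y hy
    refine ⟨⟨hx, mem_univ x⟩, ?_⟩
    rw [graph_eq]
    exact hy

open Pool.Agent.Y990.CB in
lemma P_eq (d : ℕ) (p : unitInterval) : P d p = mu (siteM d) p := rfl

open Pool.Agent.Y990.CB in
lemma theta_eq (d : ℕ) (p : unitInterval) : theta d p = th (siteM d) p := by
  unfold theta th
  rw [P_eq]
  congr 1
  ext ω
  exact infinite_iff ω 0

open Pool.Agent.Y990.CB in
lemma pc_eq (d : ℕ) : pc d = Pool.Agent.Y990.CB.pc (siteM d) := by
  apply Subtype.ext
  show sSup {t : ℝ | ∃ q : unitInterval, (q : ℝ) = t ∧ theta d q = 0} =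
    sSup {x : ℝ | ∃ q : unitInterval, (q : ℝ) = x ∧ th (siteM d) q = 0}
  simp only [theta_eq]

open Pool.Agent.Y990.CB in
lemma box_eq (d N : ℕ) : box d N = Bo (0 : V d) N := by
  ext x
  simp only [box, Bo, mem_ofPred_eq, Pi.zero_apply, sub_zero]

open Pool.Agent.Y990.CB in
lemma sphere_eq (d N : ℕ) : sphere d N = Fr (0 : V d) N := by
  ext x
  simp only [sphere, Fr, box_eq, mem_ofPred_eq, Pi.zero_apply, sub_zero]

open Pool.Agent.Y990.CB in
lemma reach_open {d : ℕ} {ω : V d → Bool} {S : Set (V d)} {x y : V d} (hxy : x ≠ y)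
    (h : (openGraph ω S).Reachable x y) : y ∈ cluster ω S x := by
  refine ⟨?_, h⟩
  obtain ⟨q⟩ := h
  cases q with
  | nil => exact absurd rfl hxy
  | cons hadj _ => exact ⟨hadj.2.1.2, hadj.2.1.1⟩

open Pool.Agent.Y990.CB in
lemma cross_sub {d : ℕ} (N L K : ℕ) (hNL : N < L) :
    Cr (siteM d) N L K ⊆ manyCrossing d N L K := by
  rintro ω ⟨x, h1, h2⟩
  refine ⟨x, fun i => ⟨?_, ?_⟩, fun i j hij hc => ?_⟩
  · rw [box_eq]
    exact (h1 i).1
  · obtain ⟨y, hy, hr⟩ := (h1 i).2
    refine ⟨y, ?_, by rw [sphere_eq]; exact hy⟩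
    have hne : x i ≠ y := by
      intro he
      obtain ⟨j, hj⟩ := hy.2
      have h3 := (h1 i).1 j
      rw [← he] at hj
      rw [hj] at h3
      have : (L : ℤ) ≤ N := h3
      omega
    rw [← graph_eq, ← box_eq] at hr
    exact reach_open hne hr
  · apply h2 i j hij
    rw [box_eq] at hc
    exact cluster_sub ω _ _ hc

/-- **What `θ(p_c) > 0` would entail.**  For every `d ≥ 2`:

* for all `R ≥ 1` and `ε > 0` and all vertices `v` with `|v|` large, `0` and `v` are connected by
  an open path inside the box of radius `R |v|` with `P_{p_c}`-probability at most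
  `(1 - 1 / (2 · 10^14 R)) θ(p_c)² + ε` (this contains information only if `θ(p_c) > 0`, where the
  probability that `0` and `v` are both in the infinite cluster is at least `θ(p_c)²`);
* if `θ(p_c) > 0`, then for all `K ≥ 1` and `R ≥ 2` and all large `N`, with `P_{p_c}`-probability
  at least `(1 / (2 · 10^14 K R))^(K (K - 1) / 2) / 2`, at least `K` distinct open clusters of the
  box of radius `R N` cross from the box of radius `N` to the boundary of the box of radius `R N`;
* if `θ(p_c) > 0`, then the expected chemical distance of `0` and `v` (counted as zero if they are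
  in different clusters) is at least `A |v|` for all `|v|` large, whatever `A` is. -/
theorem result (d : ℕ) (hd : 2 ≤ d) :
    (∀ (R : ℕ) (ε : ℝ), 1 ≤ R → 0 < ε → ∃ N0 : ℕ, ∀ v : V d, N0 ≤ supNorm v →
      (P d (pc d)).real {ω | v ∈ cluster ω (box d (R * supNorm v)) 0} ≤
        (1 - 1 / (2 * 10 ^ 14 * R)) * theta d (pc d) ^ 2 + ε) ∧
    (0 < theta d (pc d) →
      (∀ K R : ℕ, 1 ≤ K → 2 ≤ R → ∃ N0 : ℕ, ∀ N : ℕ, N0 ≤ N →
        (1 / (2 * 10 ^ 14 * (K : ℝ) * R)) ^ (K.choose 2) / 2 ≤
          (P d (pc d)).real (manyCrossing d N (R * N) K)) ∧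
      ∀ A : ℕ, ∃ N0 : ℕ, ∀ v : V d, N0 ≤ supNorm v → ((A * supNorm v : ℕ) : ENNReal) ≤
        ∫⁻ ω, ((openGraph ω univ).dist 0 v : ENNReal) ∂(P d (pc d))) := by
  have hN : Pool.Agent.Y990.CB.Nd (Pool.Agent.Y990.CB.siteM d) := Pool.Agent.Y990.CB.nd_site
  rw [pc_eq, theta_eq]
  refine ⟨fun R ε hR hε => ?_, fun hθ => ⟨fun K R hK hR => ?_, fun A => ?_⟩⟩
  · obtain ⟨N0, h0⟩ := Pool.Agent.Y990.CB.finB hd _ hN R hR ε hε
    refine ⟨N0, fun v hv => le_trans ?_ (h0 v hv)⟩
    rw [P_eq]
    refine measureReal_mono ?_ (measure_ne_top _ _)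
    intro ω hω
    have h1 := cluster_sub ω _ _ hω
    rw [box_eq] at h1
    exact h1
  · obtain ⟨N0, h0⟩ := Pool.Agent.Y990.CB.finC hd _ hN hθ K R hK (by omega)
    refine ⟨max N0 1, fun N hN' => le_trans (h0 N (le_trans (le_max_left _ _) hN')) ?_⟩
    rw [P_eq]
    refine measureReal_mono (cross_sub N (R * N) K ?_) (measure_ne_top _ _)
    have h1 : 1 ≤ N := le_trans (le_max_right _ _) hN'
    nlinarith
  · obtain ⟨N0, h0⟩ := Pool.Agent.Y990.CB.finD hd _ hN hθ A
    refine ⟨N0, fun v hv => le_trans (h0 v hv) (le_of_eq ?_)⟩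
    rw [P_eq]
    simp only [graph_eq]
    rfl

end

end Pool.Agent.Results.MP_e13933_pr.StrangeInfiniteCluster
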